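import Pool.Agent.H67.BB.Poly

set_option autoImplicit false

/-!
# The zeros of all Dirichlet L-functions do not decide whether there are infinitely many primes `a² + 1`

The known results on primes in sparse sets use the distribution of the primes in intervals and residue classes.  We
show that all information of this kind, even in its strongest conceivable form, is consistent with the failure of
the conjecture: there is a system of generalised primes in the integers which contains only finitely many numbers
`a² + 1`, and only finitely many values of every other integer polynomial of degree at least two, although it differs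
from the primes by very little.  Every prime `p` is moved by at most `f p`, where `f` tends to infinity as slowly as
we like, only `O(x ^ σ)` primes up to `x` are moved for each `σ > 1 / 2`, each modulus sees only finitely many changes
of residues, and for every Dirichlet character the Euler product is the Dirichlet L-function times a factor `G`,
holomorphic and without zeros in `Re s > 0`, which is bounded above and below in every half plane `Re s ≥ σ > 1 / 2`
(so all the L-functions of the system have the zeros of the classical ones in `Re s > 0`, with multiplicities, and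
the same order of growth in `Re s ≥ σ`).  The generalised integers have a density with an error `O(x ^ σ)`
for each `σ > 1 / 2`.

Proof.  The values of an integer polynomial of degree at least two have upper Banach density zero, and the sum of
their powers `m ^ (-σ)` converges.  We list the polynomials; from a stage `i` on, chosen very late, the primes which
are values of one of the first `i` polynomials are moved to nearby composite numbers in the same class modulo `i!`
which are no such values.  Hall's theorem and the inequality of Brun and Titchmarsh give an injective map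
within bounded blocks.
-/

namespace Pool.Agent.Results.MP_7169d5_nt.ZerosAndPolynomialValues

open Filter Topology Polynomial

/-- The generalised integer of `n`: in the factorisation of `n` every prime `p` is replaced by `φ p`. -/
noncomputable def generalised (φ : ℕ → ℕ) (n : ℕ) : ℕ := n.factorization.prod fun p k => (φ p) ^ k

/-- Let `f ≥ 0` tend to infinity.  There is a map `φ` on the primes with values `≥ 2` such that
(1) `φ` is injective on the primes, `|φ p - p| ≤ f p` for all primes `p`, for each `σ > 1 / 2` there is `K` with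
`φ p = p` for all but at most `K x ^ σ` primes `p ≤ x`, for all `x ≥ 0`, and for each `q ≥ 1`: `φ p ≡ p` modulo `q` for
all but finitely many `p`;
(2) there is a function `K` such that for every Dirichlet character `χ` the Euler product over the `φ p` is
`L(s, χ) G(s)` for `Re s > 1`, where `G` is holomorphic without zeros in `Re s > 0`, and `|G(s)|` and `1 / |G(s)|` are at
most `K σ` for `Re s ≥ σ > 1 / 2`;
(3) there is `ρ > 0` such that for each `σ` with `1 / 2 < σ ≤ 1` there is `K` such that for all `x ≥ 0` the number of
the generalised integers up to `x`, that is of the `n ≥ 1` with `generalised φ n ≤ x`, differs from `ρ x` by at most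
`K x ^ σ`;
(4) for every integer polynomial `F` of degree at least two there are only finitely many primes `p` for which `φ p`
is a value of `F` at an integer; in particular only finitely many `φ p` are of the form `a² + 1`. -/
theorem result (f : ℕ → ℝ) (hf0 : ∀ n, 0 ≤ f n) (hf : Tendsto f atTop atTop) :
    ∃ φ : ℕ → ℕ,
    (Set.InjOn φ {p | p.Prime} ∧ (∀ p : ℕ, p.Prime → 2 ≤ φ p) ∧
      (∀ p : ℕ, p.Prime → |(φ p : ℝ) - p| ≤ f p) ∧
      (∀ σ : ℝ, 1 / 2 < σ → ∃ K : ℝ, ∀ x : ℝ, 0 ≤ x →
        ({p : ℕ | p.Prime ∧ (p : ℝ) ≤ x ∧ φ p ≠ p}.ncard : ℝ) ≤ K * x ^ σ) ∧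
      ∀ q : ℕ, 0 < q → {p : ℕ | p.Prime ∧ ¬ φ p ≡ p [MOD q]}.Finite) ∧
    (∃ K : ℝ → ℝ, ∀ (q : ℕ) [NeZero q] (χ : DirichletCharacter ℂ q), ∃ G : ℂ → ℂ,
      DifferentiableOn ℂ G {s : ℂ | 0 < s.re} ∧ (∀ s : ℂ, 0 < s.re → G s ≠ 0) ∧
      (∀ (σ : ℝ) (s : ℂ), 1 / 2 < σ → σ ≤ s.re → ‖G s‖ ≤ K σ ∧ ‖(G s)⁻¹‖ ≤ K σ) ∧
      ∀ s : ℂ, 1 < s.re → HasProd (fun p : Nat.Primes => (1 - χ (φ p) * (φ p : ℂ) ^ (-s))⁻¹)
        (χ.LFunction s * G s)) ∧
    (∃ ρ : ℝ, 0 < ρ ∧ ∀ σ : ℝ, 1 / 2 < σ → σ ≤ 1 → ∃ K : ℝ, ∀ x : ℝ, 0 ≤ x →
      |({n : ℕ | n ≠ 0 ∧ (generalised φ n : ℝ) ≤ x}.ncard : ℝ) - ρ * x| ≤ K * x ^ σ) ∧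
    ∀ F : ℤ[X], 2 ≤ F.natDegree → {p : ℕ | p.Prime ∧ ∃ n : ℤ, F.eval n = (φ p : ℤ)}.Finite := by
  classical
  haveI := Pool.Agent.H67.BB.countable_poly
  obtain ⟨e, he⟩ := exists_surjective_nat ℤ[X]
  let V : ℕ → Set ℕ := fun i => if 2 ≤ (e i).natDegree then Pool.Agent.H67.BB.PV (e i) else ∅
  have hV1 : ∀ i, Pool.Agent.H67.BB.BanachZero (V i) := by
    intro i
    show Pool.Agent.H67.BB.BanachZero (if 2 ≤ (e i).natDegree then Pool.Agent.H67.BB.PV (e i) else ∅)
    split_ifs with h
    · exact Pool.Agent.H67.BB.banachZero_PV h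
    · exact Pool.Agent.H67.BB.banachZero_empty
  have hV2 : ∀ i σ, 1 / 2 < σ → Summable (Pool.Agent.H67.BB.wt (V i) σ) := by
    intro i σ hσ
    show Summable (Pool.Agent.H67.BB.wt (if 2 ≤ (e i).natDegree then Pool.Agent.H67.BB.PV (e i) else ∅) σ)
    split_ifs with h
    · exact Pool.Agent.H67.BB.summable_PV h hσ
    · have : Pool.Agent.H67.BB.wt ∅ σ = fun _ => 0 := by
        unfold Pool.Agent.H67.BB.wt
        rw [Set.indicator_empty]
      rw [this]
      exact summable_zero
  choose N hN using fun i : ℕ => Pool.Agent.H67.BB.exists_tail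
    (hV2 i (1 / 2 + 1 / ((i : ℝ) + 1)) (by have : (0 : ℝ) < 1 / ((i : ℝ) + 1) := by positivity
                                           linarith))
    (show (0 : ℝ) < (1 / 2) ^ (i + 1) by positivity)
  obtain ⟨φ, X, hX, O⟩ := Pool.Agent.H67.BB.template (Pool.Agent.H67.BB.TV V)
    (fun j M hM => Pool.Agent.H67.BB.TV_syn hV1 j M hM) f hf0 hf (fun i _ => N i)
  have hM := O.move
  have hsum := O.summable_uS hV2 (fun i F hF => hN i F fun m hm => (hX i).trans (hF m hm))
  refine ⟨φ, ⟨O.inj, hM.two, O.dispf, fun σ hσ => ?_, hM.fin⟩, Pool.Agent.H67.BB.euler3 hM hsum,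
    Pool.Agent.H67.BB.countS hM hsum, fun F hF => ?_⟩
  · refine ⟨∑' r, Pool.Agent.H67.BB.uS σ φ r, fun x hx => ?_⟩
    exact Pool.Agent.H67.BB.card_moved_le (hsum σ hσ) (by linarith) hx
  · obtain ⟨i, rfl⟩ := he F
    have h1 := O.avoid i
    refine h1.subset ?_
    rintro p ⟨hp, n, hn⟩
    refine ⟨hp, ?_⟩
    show φ p ∈ (if 2 ≤ (e i).natDegree then Pool.Agent.H67.BB.PV (e i) else ∅)
    rw [if_pos hF]
    exact ⟨n, hn⟩

end Pool.Agent.Results.MP_7169d5_nt.ZerosAndPolynomialValues
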